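import Mathlib
import Pool.Agent.H228R4.Euclid
import Pool.Agent.Q293.Cell.Check

set_option autoImplicit false

namespace Pool.Agent.Results.MP_c35292_co.CellsSubsoluble

/-- The golden ratio. -/
noncomputable abbrev φ : ℝ := Real.goldenRatio

/-- The coordinate patterns of the 120-cell (with circumradius `√8`). -/
noncomputable def patterns120 : List (Fin 4 → ℝ) :=
  [![0, 0, 2, 2], ![1, 1, 1, √5], ![(φ ^ 2)⁻¹, φ, φ, φ], ![φ⁻¹, φ⁻¹, φ⁻¹, φ ^ 2],
    ![0, (φ ^ 2)⁻¹, 1, φ ^ 2], ![0, φ⁻¹, φ, √5], ![φ⁻¹, 1, φ, 2]]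

/-- The coordinate patterns of the 600-cell (with circumradius `2`). -/
noncomputable def patterns600 : List (Fin 4 → ℝ) :=
  [![2, 0, 0, 0], ![1, 1, 1, 1], ![0, φ⁻¹, 1, φ]]

/-- The set of all points obtained from a pattern by an even permutation of the coordinates and
arbitrary changes of signs. -/
def evenSigned (P : List (Fin 4 → ℝ)) : Set (EuclideanSpace ℝ (Fin 4)) :=
  {x | ∃ p ∈ P, ∃ σ : Equiv.Perm (Fin 4), Equiv.Perm.sign σ = 1 ∧ ∀ i, |x i| = p (σ i)}

/-- The vertex set of the 120-cell. -/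
noncomputable def cell120 : Set (EuclideanSpace ℝ (Fin 4)) := evenSigned patterns120

/-- The vertex set of the 600-cell. -/
noncomputable def cell600 : Set (EuclideanSpace ℝ (Fin 4)) := evenSigned patterns600

/-- `Y` is a soluble set: a soluble group of isometries, each mapping `Y` onto itself, acts
transitively on `Y`. -/
def IsSolubleSet {n : ℕ} (Y : Set (EuclideanSpace ℝ (Fin n))) : Prop :=
  ∃ H : Subgroup (EuclideanSpace ℝ (Fin n) ≃ᵢ EuclideanSpace ℝ (Fin n)),
    Group.IsSolvable H ∧ (∀ h ∈ H, ⇑h '' Y = Y) ∧ ∀ y ∈ Y, ∀ z ∈ Y, ∃ h ∈ H, h y = z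

/-- A group of isometries, of order a power of two, each of whose elements maps `Y` onto itself,
acts transitively on `Y`. -/
def IsTwoGroupSet {n : ℕ} (Y : Set (EuclideanSpace ℝ (Fin n))) : Prop :=
  ∃ H : Subgroup (EuclideanSpace ℝ (Fin n) ≃ᵢ EuclideanSpace ℝ (Fin n)),
    (∃ k : ℕ, Nat.card H = 2 ^ k) ∧ (∀ h ∈ H, ⇑h '' Y = Y) ∧ ∀ y ∈ Y, ∀ z ∈ Y, ∃ h ∈ H, h y = z

/-- `X` is subsoluble: some finite soluble set `Y` (on which even a group of isometries of order a
power of two acts transitively) contains an isometric copy of `X`. -/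
def SubsolubleByTwoGroup (X : Set (EuclideanSpace ℝ (Fin 4))) : Prop :=
  ∃ n : ℕ, 4 ≤ n ∧ ∃ Y : Set (EuclideanSpace ℝ (Fin n)),
    Y.Finite ∧ IsSolubleSet Y ∧ IsTwoGroupSet Y ∧
    ∃ f : EuclideanSpace ℝ (Fin 4) → EuclideanSpace ℝ (Fin n), Isometry f ∧ f '' X ⊆ Y

/-- Auxiliary: a finite nonempty set with transitive symmetries is subsoluble. -/
lemma sub_of_trans (X : Set (EuclideanSpace ℝ (Fin 4))) (hX : X.Finite) (hne : X.Nonempty)
    (htr : ∀ x ∈ X, ∀ y ∈ X, ∃ g : EuclideanSpace ℝ (Fin 4) ≃ᵢ EuclideanSpace ℝ (Fin 4),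
      ⇑g '' X = X ∧ g x = y) : SubsolubleByTwoGroup X := by
  obtain ⟨m, Y, f, h1, h2, h3, H, h4, h5, h6, h7⟩ := Pool.Agent.H228R4.embed 4 X hX hne htr
  refine ⟨m, ?_, Y, h1, ⟨H, h5, h6, h7⟩, ⟨H, h4, h6, h7⟩, f, h2, h3⟩
  have hinj := (h2.affineIsometryOfStrictConvexSpace).linearIsometry.injective
  have := LinearMap.finrank_le_finrank_of_injective
    (f := (h2.affineIsometryOfStrictConvexSpace).linearIsometry.toLinearMap) hinj
  simpa using this

open Pool.Agent.Q293.Cell

lemma val_psi : val (-1, 1) = φ⁻¹ := by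
  rw [Real.inv_goldenRatio]; simp only [val, Real.goldenRatio, Real.goldenConj]; push_cast; ring

lemma val_psi2 : val (2, -1) = (φ ^ 2)⁻¹ := by
  rw [← inv_pow, ← val_psi]; simp only [val]; push_cast
  linear_combination (-1 : ℝ) * Real.goldenRatio_sq

lemma val_phi2 : val (1, 1) = φ ^ 2 := by
  rw [Real.goldenRatio_sq]; simp only [val]; push_cast; ring

lemma val_s5 : val (-1, 2) = √5 := by
  simp only [val, Real.goldenRatio]; push_cast; ring

lemma val_phi : val (0, 1) = φ := by simp [val]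
lemma val_0 : val (0, 0) = 0 := by simp [val]
lemma val_1 : val (1, 0) = 1 := by simp [val]
lemma val_2 : val (2, 0) = 2 := by simp [val]

lemma fn_eq (a b c d : Z) (i : Fin 4) :
    val (fn (a, b, c, d) i) = (![val a, val b, val c, val d] : Fin 4 → ℝ) i := by
  fin_cases i <;> rfl

lemma cell120_eq : cell120 = V P120 := by
  ext x
  rw [mem_V]
  simp only [cell120, evenSigned, patterns120, P120, Set.mem_ofPred_eq, List.mem_cons,
    List.not_mem_nil, or_false, exists_eq_or_imp, exists_eq_left, fn_eq, val_psi, val_psi2,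
    val_phi2, val_s5, val_phi, val_0, val_1, val_2]

lemma cell600_eq : cell600 = V P600 := by
  ext x
  rw [mem_V]
  simp only [cell600, evenSigned, patterns600, P600, Set.mem_ofPred_eq, List.mem_cons,
    List.not_mem_nil, or_false, exists_eq_or_imp, exists_eq_left, fn_eq, val_psi,
    val_phi, val_0, val_1, val_2]

lemma vec_mem {P : List T} {p : T} (hp : p ∈ P) (hn : ∀ v ∈ orb P, Nonneg v) : vec p ∈ V P := by
  have h1 : p ∈ orb P := List.mem_flatMap.2 ⟨p, hp, by simp [ev]⟩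
  have h2 := hn p h1
  have hi := is_vec p
  exact ⟨p, h1, by rw [hi.1, abs_of_nonneg h2.1], by rw [hi.2.1, abs_of_nonneg h2.2.1],
    by rw [hi.2.2.1, abs_of_nonneg h2.2.2.1], by rw [hi.2.2.2, abs_of_nonneg h2.2.2.2]⟩

/-- The vertex sets of the 120-cell (Q1) and of the 600-cell (Q2) are subsoluble. -/
theorem result : SubsolubleByTwoGroup cell120 ∧ SubsolubleByTwoGroup cell600 := by
  constructor
  · rw [cell120_eq]
    exact sub_of_trans _ (finite_V _) ⟨_, vec_mem (List.mem_cons_self) n1⟩ trans120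
  · rw [cell600_eq]
    exact sub_of_trans _ (finite_V _) ⟨_, vec_mem (List.mem_cons_self) n2⟩ trans600

end Pool.Agent.Results.MP_c35292_co.CellsSubsoluble
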